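import Pool.Agent.Lib.MP_c167ed_anB.Wt
import Pool.Agent.Lib.MP_c167ed_an.QInit

/-!
# MP_c167ed_an, dimension six: level sets of `ω₀/r⁴` in slabs, `H^∞` data
-/

open MeasureTheory Set Filter Topology
open scoped ContDiff ENNReal NNReal

namespace Pool.Agent.Lib.MP_c167ed_anB

open Pool.Agent.Lib.MP_c167ed_an

/-- `a^{5/3} ≤ L^{1/6} a² + L^{-5/6}` -/
theorem init_young {a L : ℝ} (ha : 0 ≤ a) (hL : 0 < L) :
    a ^ (5 / 3 : ℝ) ≤ L ^ (1 / 6 : ℝ) * a ^ 2 + L ^ (-(5 / 6) : ℝ) := by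
  have h1 : 0 ≤ L ^ (1 / 6 : ℝ) * a ^ 2 := by positivity
  have h2 : 0 ≤ L ^ (-(5 / 6) : ℝ) := by positivity
  rcases le_total a (L ^ (-(1 / 2) : ℝ)) with h | h
  · have h3 : a ^ (5 / 3 : ℝ) ≤ (L ^ (-(1 / 2) : ℝ)) ^ (5 / 3 : ℝ) :=
      Real.rpow_le_rpow ha h (by norm_num)
    rw [← Real.rpow_mul hL.le] at h3
    norm_num at h3 ⊢
    linarith
  · have hb : 0 < L ^ (-(1 / 2) : ℝ) := by positivity
    have ha0 : 0 < a := hb.trans_le h
    have h3 : a ^ (-(1 / 3) : ℝ) ≤ (L ^ (-(1 / 2) : ℝ)) ^ (-(1 / 3) : ℝ) :=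
      Real.rpow_le_rpow_of_nonpos hb h (by norm_num)
    rw [← Real.rpow_mul hL.le] at h3
    have e1 : (-(1 / 2) * -(1 / 3) : ℝ) = 1 / 6 := by norm_num
    rw [e1] at h3
    have e2 : a ^ (5 / 3 : ℝ) = a ^ (-(1 / 3) : ℝ) * a ^ 2 := by
      rw [← Real.rpow_natCast a 2, ← Real.rpow_add ha0]
      norm_num
    rw [e2]
    have h4 : a ^ (-(1 / 3) : ℝ) * a ^ 2 ≤ L ^ (1 / 6 : ℝ) * a ^ 2 :=
      mul_le_mul_of_nonneg_right h3 (sq_nonneg _)
    linarith

/-- the initial measure of the level sets in a slab of width `L` -/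
theorem level_init {v : V 5 → V 5} (hv : ContDiff ℝ ∞ v) (hax : AxisymNoSwirl v)
    (hH : ∀ k : ℕ, ∫⁻ x, ‖iteratedFDeriv ℝ k v x‖ₑ ^ 2 < ⊤) :
    ∃ C : ℝ, 0 ≤ C ∧ ∀ l Lz z0 : ℝ, 0 < l → 0 < Lz →
      ∫⁻ x : V 5, ENNReal.ofReal (Phi l (curl v x / rad x ^ (5 - 1)) * wt ((ax x - z0) / Lz)) ≤
        ENNReal.ofReal (C * (l ^ (-(5 / 3) : ℝ) * Lz ^ (1 / 6 : ℝ))) := by
  obtain ⟨G, hGm, hG2, ⟨B, hB⟩, hG⟩ := qinit_second hv hH
  obtain ⟨c, -, hc⟩ := lintegral_axisym (m := 5) (by omega)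
  set I2 : ℝ := (∫⁻ z, G z ^ 2).toReal with hI2
  have hI20 : 0 ≤ I2 := ENNReal.toReal_nonneg
  have hGtop : ∀ z, G z ≠ ⊤ := fun z => ne_top_of_le_ne_top ENNReal.coe_ne_top (hB _)
  refine ⟨c * ((4 * I2 + 2) / 5), by positivity, ?_⟩
  intro l Lz z0 hl hLz
  set A : ℝ → ℝ := fun z => 2 * (G z).toReal / l with hA
  have hAm : Measurable A := ((hGm.ennreal_toReal).const_mul 2).div_const l
  have hA0 : ∀ z, 0 ≤ A z := fun z => by positivity
  set S : Set ℝ := Icc (z0 - Lz) (z0 + Lz) with hS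
  set f1 : ℝ → ℝ → ℝ≥0∞ := fun r z =>
    if r ^ 3 < A z then ENNReal.ofReal ((A z / r ^ 3) ^ (0 : ℝ)) else 0 with hf1
  set f : ℝ → ℝ → ℝ≥0∞ := fun r z => f1 r z * S.indicator 1 z with hf
  have hf1m : Measurable (Function.uncurry f1) := by
    have h1 : Measurable (fun q : ℝ × ℝ => q.1 ^ 3) := measurable_fst.pow_const _
    have h2 : Measurable (fun q : ℝ × ℝ => A q.2) := hAm.comp measurable_snd
    exact Measurable.ite (measurableSet_lt h1 h2)
      (((h2.div h1).pow_const _).ennreal_ofReal) measurable_const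
  have hSm : Measurable (S.indicator (1 : ℝ → ℝ≥0∞)) := measurable_one.indicator measurableSet_Icc
  have hfm : Measurable (Function.uncurry f) := by
    exact hf1m.mul (hSm.comp measurable_snd)
  have hpt : ∀ᵐ x : V 5, ENNReal.ofReal (Phi l (curl v x / rad x ^ (5 - 1)) *
      wt ((ax x - z0) / Lz)) ≤ f (rad x) (ax x) := by
    filter_upwards [ae_rad_pos (m := 5) (by omega)] with x hx
    by_cases hz : ax x ∈ S
    · by_cases h : rad x ^ 3 < A (ax x)
      · simp only [hf, hf1, if_pos h, indicator_of_mem hz, Real.rpow_zero, Pi.one_apply, mul_one]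
        refine ENNReal.ofReal_le_ofReal ?_
        exact mul_le_one₀ (Phi_le_one _ _) (wt_nonneg _) (wt_le_one _)
      · have hcurl := qinit_curl (by omega) hv hax hB hG hx
        have hcurl0 : 0 ≤ curl v x := Real.sqrt_nonneg _
        have h1 : curl v x / rad x ^ (5 - 1) ≤ l := by
          rw [div_le_iff₀ (by positivity)]
          have h2 : A (ax x) ≤ rad x ^ 3 := not_lt.1 h
          have h3 : 2 * (G (ax x)).toReal ≤ rad x ^ 3 * l := by
            simp only [hA] at h2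
            rwa [div_le_iff₀ hl] at h2
          calc curl v x ≤ 2 * (G (ax x)).toReal * rad x := hcurl
            _ ≤ (rad x ^ 3 * l) * rad x := by gcongr
            _ = l * rad x ^ (5 - 1) := by ring
        have h4 : 0 ≤ curl v x / rad x ^ (5 - 1) := by positivity
        rw [Phi_zero hl (by rwa [abs_of_nonneg h4]), zero_mul, ENNReal.ofReal_zero]
        exact zero_le
    · have h1 : 1 ≤ |(ax x - z0) / Lz| := by
        rw [abs_div, abs_of_pos hLz, one_le_div hLz]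
        by_contra hcon
        push Not at hcon
        rw [abs_lt] at hcon
        exact hz ⟨by linarith, by linarith⟩
      rw [wt_zero h1, mul_zero, ENNReal.ofReal_zero]
      exact zero_le
  set K1 : ℝ := l ^ (-(5 / 3) : ℝ) / 5 with hK1
  have hK10 : 0 ≤ K1 := by positivity
  have hinner : ∀ z, ∫⁻ r in Ioi (0 : ℝ), f r z * ENNReal.ofReal (r ^ (5 - 1)) ≤
      ENNReal.ofReal (K1 * Lz ^ (1 / 6 : ℝ) * 4) * G z ^ 2 +
        ENNReal.ofReal (K1 * Lz ^ (-(5 / 6) : ℝ)) * S.indicator 1 z := by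
    intro z
    by_cases hz : z ∈ S
    · have h0 : ∀ r, f r z = f1 r z := fun r => by
        simp only [hf, indicator_of_mem hz, Pi.one_apply, mul_one]
      simp only [h0]
      have h1 := qinit_inner (κ := 3) (μ := 4) (by norm_num) (p := 0) (by norm_num) (hA0 z)
      refine h1.trans ?_
      have h2 : A z ^ ((((4 : ℕ) : ℝ) + 1) / ((3 : ℕ) : ℝ)) /
          (((4 : ℕ) : ℝ) + 1 - ((3 : ℕ) : ℝ) * 0) ≤
          K1 * Lz ^ (1 / 6 : ℝ) * 4 * (G z).toReal ^ 2 + K1 * Lz ^ (-(5 / 6) : ℝ) := by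
        have e1 : (((4 : ℕ) : ℝ) + 1) / ((3 : ℕ) : ℝ) = 5 / 3 := by norm_num
        have e2 : ((4 : ℕ) : ℝ) + 1 - ((3 : ℕ) : ℝ) * 0 = 5 := by norm_num
        rw [e1, e2]
        have h3 : A z ^ (5 / 3 : ℝ) = l ^ (-(5 / 3) : ℝ) * (2 * (G z).toReal) ^ (5 / 3 : ℝ) := by
          simp only [hA]
          rw [Real.div_rpow (by positivity) hl.le, Real.rpow_neg hl.le]
          ring
        have h4 := init_young (a := 2 * (G z).toReal) (by positivity) hLz
        rw [h3]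
        calc l ^ (-(5 / 3) : ℝ) * (2 * (G z).toReal) ^ (5 / 3 : ℝ) / 5 =
              K1 * (2 * (G z).toReal) ^ (5 / 3 : ℝ) := by rw [hK1]; ring
          _ ≤ K1 * (Lz ^ (1 / 6 : ℝ) * (2 * (G z).toReal) ^ 2 + Lz ^ (-(5 / 6) : ℝ)) := by gcongr
          _ = _ := by ring
      refine (ENNReal.ofReal_le_ofReal h2).trans ?_
      rw [ENNReal.ofReal_add (by positivity) (by positivity), indicator_of_mem hz, Pi.one_apply,
        mul_one, ENNReal.ofReal_mul (by positivity), ENNReal.ofReal_pow ENNReal.toReal_nonneg,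
        ENNReal.ofReal_toReal (hGtop z)]
    · have h0 : ∀ r, f r z = 0 := fun r => by
        simp only [hf, indicator_of_notMem hz, mul_zero]
      simp only [h0, zero_mul, lintegral_zero]
      exact zero_le
  have hvol : ∫⁻ z : ℝ, S.indicator 1 z = ENNReal.ofReal (2 * Lz) := by
    rw [lintegral_indicator_one measurableSet_Icc, Real.volume_Icc]
    congr 1
    ring
  calc ∫⁻ x : V 5, ENNReal.ofReal (Phi l (curl v x / rad x ^ (5 - 1)) * wt ((ax x - z0) / Lz))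
      ≤ ∫⁻ x : V 5, f (rad x) (ax x) := lintegral_mono_ae hpt
    _ = c * ∫⁻ z, ∫⁻ r in Ioi (0 : ℝ), f r z * ENNReal.ofReal (r ^ (5 - 1)) := by
        rw [hc f hfm]
    _ ≤ c * ∫⁻ z, (ENNReal.ofReal (K1 * Lz ^ (1 / 6 : ℝ) * 4) * G z ^ 2 +
        ENNReal.ofReal (K1 * Lz ^ (-(5 / 6) : ℝ)) * S.indicator 1 z) := by
        gcongr with z
        exact hinner z
    _ = c * (ENNReal.ofReal (K1 * Lz ^ (1 / 6 : ℝ) * 4) * ENNReal.ofReal I2 +
        ENNReal.ofReal (K1 * Lz ^ (-(5 / 6) : ℝ)) * ENNReal.ofReal (2 * Lz)) := by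
        rw [lintegral_add_right _ (hSm.const_mul _),
          lintegral_const_mul' _ _ ENNReal.ofReal_ne_top,
          lintegral_const_mul' _ _ ENNReal.ofReal_ne_top, hvol, hI2,
          ENNReal.ofReal_toReal hG2.ne]
    _ = ENNReal.ofReal (c * ((4 * I2 + 2) / 5) * (l ^ (-(5 / 3) : ℝ) * Lz ^ (1 / 6 : ℝ))) := by
        rw [← ENNReal.ofReal_mul (by positivity), ← ENNReal.ofReal_mul (by positivity),
          ← ENNReal.ofReal_add (by positivity) (by positivity), ← ENNReal.ofReal_coe_nnreal,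
          ← ENNReal.ofReal_mul (NNReal.coe_nonneg _)]
        congr 1
        have e3 : Lz ^ (-(5 / 6) : ℝ) * Lz = Lz ^ (1 / 6 : ℝ) := by
          nth_rewrite 2 [← Real.rpow_one Lz]
          rw [← Real.rpow_add hLz]
          norm_num
        rw [hK1]
        linear_combination (c * (l ^ (-(5 / 3) : ℝ) / 5) * 2) * e3

end Pool.Agent.Lib.MP_c167ed_anB
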