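import Pool.Agent.Lib.MP_c167ed_anB.Wt
import Pool.Agent.Lib.MP_c167ed_an.QBound

/-!
# MP_c167ed_an, dimension six: transport of the level cutoff with a weight in the axis direction
-/

open MeasureTheory Set Filter Topology
open scoped ContDiff ENNReal NNReal

namespace Pool.Agent.Lib.MP_c167ed_anB

open Pool.Agent.Lib.MP_c167ed_an

variable {m : ℕ} {T : ℝ} {u : ℝ → V m → V m} {p : ℝ → V m → ℝ}

/-- the density `Φ(ξ) W((z-z₀)/L) χ` -/
noncomputable def den (u : ℝ → V m → V m) (l Lz z0 U : ℝ) (n : ℕ) (q : ℝ × V m) : ℝ :=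
  Phi l (xi u q) * wt ((ax q.2 - z0) / Lz) * chi U U n q

theorem den_nonneg (u : ℝ → V m → V m) (l Lz z0 U : ℝ) (n : ℕ) (q : ℝ × V m) :
    0 ≤ den u l Lz z0 U n q :=
  mul_nonneg (mul_nonneg (Phi_nonneg _ _) (wt_nonneg _)) (chi_nonneg _ _ _ _)

theorem wax_contDiff (Lz z0 : ℝ) : ContDiff ℝ 1 (fun q : ℝ × V m => wt ((ax q.2 - z0) / Lz)) := by
  refine wt_contDiff.comp ?_
  have h1 : ContDiff ℝ 1 (fun q : ℝ × V m => ax q.2) :=
    (ax_contDiff.of_le (by exact_mod_cast le_top)).comp contDiff_snd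
  exact (h1.sub contDiff_const).div_const _

theorem den_contDiffOn (h : EulerSolution m T u p) (l Lz z0 U : ℝ) (n : ℕ) :
    ContDiffOn ℝ 1 (den u l Lz z0 U n) (Ioo 0 T ×ˢ univ) := by
  intro q hq
  rcases (rad_nonneg q.2).eq_or_lt with hr | hr
  · have h1 : den u l Lz z0 U n =ᶠ[𝓝 q] fun _ => 0 := by
      filter_upwards [chi_near_axis U U n hr.symm] with q' hq'
      unfold den; rw [hq', mul_zero]
    exact (contDiffAt_const.congr_of_eventuallyEq h1).contDiffWithinAt
  · exact ((((Phi_contDiff l).contDiffAt.comp q (xi_contDiffAt h hq.1 hr)).mul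
      (wax_contDiff Lz z0).contDiffAt).mul (chi_contDiff U U n).contDiffAt).contDiffWithinAt

theorem den_continuousOn (h : EulerSolution m T u p) (l Lz z0 U : ℝ) (n : ℕ) :
    ContinuousOn (den u l Lz z0 U n) (Ico 0 T ×ˢ univ) := by
  intro q hq
  rcases (rad_nonneg q.2).eq_or_lt with hr | hr
  · have h1 : den u l Lz z0 U n =ᶠ[𝓝 q] fun _ => 0 := by
      filter_upwards [chi_near_axis U U n hr.symm] with q' hq'
      unfold den; rw [hq', mul_zero]
    exact (continuousAt_const.congr h1.symm).continuousWithinAt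
  · have h2 : Continuous fun q : ℝ × V m => rad q.2 := continuous_rad.comp continuous_snd
    have h3 : Continuous fun q : ℝ × V m => ax q.2 := continuous_ax.comp continuous_snd
    have h5 : ContinuousWithinAt (fun q : ℝ × V m => om (u q.1) (rad q.2) (ax q.2))
        (Ico 0 T ×ˢ univ) q :=
      ContinuousWithinAt.comp (g := fun q : ℝ × ℝ × ℝ => om (u q.1) q.2.1 q.2.2)
        (f := fun q : ℝ × V m => (q.1, rad q.2, ax q.2)) (t := Ico 0 T ×ˢ univ)
        (om_continuousOn h (q.1, rad q.2, ax q.2) ⟨hq.1, mem_univ _⟩)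
        (by fun_prop) (fun q' hq' => ⟨hq'.1, mem_univ _⟩)
    have h6 : ContinuousWithinAt (xi u) (Ico 0 T ×ˢ univ) q :=
      h5.div (h2.pow (m - 1)).continuousWithinAt (pow_pos hr _).ne'
    exact (((Phi_contDiff l).continuous.continuousAt.comp_continuousWithinAt h6).mul
      (wax_contDiff Lz z0).continuous.continuousWithinAt).mul
      (chi_contDiff U U n).continuous.continuousWithinAt

/-- derivative of the density along the flow -/
theorem den_line (hm : 2 ≤ m) (h : EulerSolution m T u p)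
    (hax : ∀ t ∈ Ico 0 T, AxisymNoSwirl (u t)) {l Lz z0 U : ℝ} (hLz : 0 < Lz) (n : ℕ) {t : ℝ}
    (ht : t ∈ Ioo 0 T) (hU : ∀ x, ‖u t x‖ ≤ U) (hL : ∀ x, ‖fderiv ℝ (u t) x‖ ≤ U) (x : V m) :
    fderiv ℝ (den u l Lz z0 U n) (t, x) (1, u t x) ≤
      den u l Lz z0 U n (t, x) / T + 4 * T * ‖u t x‖ ^ 2 / Lz ^ 2 := by
  have hT : 0 < T := ht.1.trans ht.2
  have hn1 : 0 ≤ den u l Lz z0 U n (t, x) / T := div_nonneg (den_nonneg _ _ _ _ _ _ _) hT.le
  have hn2 : 0 ≤ 4 * T * ‖u t x‖ ^ 2 / Lz ^ 2 := by positivity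
  rcases (rad_nonneg x).eq_or_lt with hr | hr
  · have h1 : den u l Lz z0 U n =ᶠ[𝓝 (t, x)] fun _ => 0 := by
      filter_upwards [chi_near_axis U U n (q := (t, x)) hr.symm] with q' hq'
      unfold den; rw [hq', mul_zero]
    rw [h1.fderiv_eq]
    simp only [fderiv_fun_const, Pi.zero_apply, zero_apply]
    linarith
  · have hC : ContDiff ℝ ∞ (u t) := h.contDiff ⟨ht.1.le, ht.2⟩
    obtain ⟨D, hD, h2⟩ := chi_deriv (U := U) (L := U) n (t := t) (x := x) (w := u t x) (hU x)
      (radial_le (by omega) hC (hax t ⟨ht.1.le, ht.2⟩) hL x)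
    have h1 := xi_line hm h hax ht hr
    have hF : HasDerivAt (Phi l) (deriv (Phi l) (xi u (t, x))) (xi u (t, x)) :=
      ((Phi_contDiff l).differentiable (by norm_num) _).hasDerivAt
    have h3 : HasDerivAt (fun s : ℝ => Phi l (xi u (t + s, x + s • u t x)))
        (deriv (Phi l) (xi u (t, x)) * 0) 0 := by
      have := hF.comp_of_eq 0 h1 (by simp)
      exact this
    have hlx : HasDerivAt (fun s : ℝ => x + s • u t x) (u t x) 0 := by
      simpa using ((hasDerivAt_id (0 : ℝ)).smul_const (u t x)).const_add x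
    have haxd : HasDerivAt (fun s : ℝ => (ax (x + s • u t x) - z0) / Lz)
        (u t x (Fin.last m) / Lz) 0 := by
      have h4 : HasDerivAt (fun s : ℝ => ax (x + s • u t x)) (u t x (Fin.last m)) 0 := by
        have := (EuclideanSpace.proj (𝕜 := ℝ) (Fin.last m) : V m →L[ℝ] ℝ).hasFDerivAt.comp_hasDerivAt
          0 hlx
        exact this
      exact (h4.sub_const z0).div_const Lz
    have hW : HasDerivAt (fun s : ℝ => wt ((ax (x + s • u t x) - z0) / Lz))
        (wt' ((ax x - z0) / Lz) * (u t x (Fin.last m) / Lz)) 0 := by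
      have := (hasDerivAt_wt ((ax x - z0) / Lz)).comp_of_eq 0 haxd (by simp)
      exact this
    have h4 := (h3.fun_mul hW).fun_mul h2
    have h5 : HasFDerivAt (den u l Lz z0 U n) (fderiv ℝ (den u l Lz z0 U n) (t, x)) (t, x) :=
      (((den_contDiffOn h l Lz z0 U n).contDiffAt ((isOpen_Ioo.prod isOpen_univ).mem_nhds
        ⟨ht, mem_univ _⟩)).differentiableAt (by norm_num)).hasFDerivAt
    have hl : HasDerivAt (fun s : ℝ => (t + s, x + s • u t x)) (1, u t x) 0 :=
      ((hasDerivAt_id (0 : ℝ)).const_add t).prodMk hlx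
    have h6 := h5.comp_hasDerivAt_of_eq 0 hl (by simp)
    have h7 := h6.unique h4
    rw [h7]
    simp only [mul_zero, zero_mul, zero_add, add_zero, zero_smul]
    set a := Phi l (xi u (t, x)) with ha
    set c := chi U U n (t, x) with hc
    set y := (ax x - z0) / Lz with hy
    have ha0 : 0 ≤ a := Phi_nonneg _ _
    have ha1 : a ≤ 1 := Phi_le_one _ _
    have hc0 : 0 ≤ c := chi_nonneg _ _ _ _
    have hc1 : c ≤ 1 := chi_le_one _ _ _ _
    have hden : den u l Lz z0 U n (t, x) = a * wt y * c := rfl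
    rw [hden]
    have hD' : a * wt y * D ≤ 0 :=
      mul_nonpos_of_nonneg_of_nonpos (mul_nonneg ha0 (wt_nonneg _)) hD
    -- Young
    set v := u t x (Fin.last m) / Lz with hv
    have hvn : v ^ 2 ≤ ‖u t x‖ ^ 2 / Lz ^ 2 := by
      rw [hv, div_pow]
      have h8 : |u t x (Fin.last m)| ≤ ‖u t x‖ := by
        simpa using PiLp.norm_apply_le (u t x) (Fin.last m)
      have h9 : u t x (Fin.last m) ^ 2 ≤ ‖u t x‖ ^ 2 := by
        rw [← sq_abs]
        exact pow_le_pow_left₀ (abs_nonneg _) h8 2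
      gcongr
    have hac0 : 0 ≤ a * c := mul_nonneg ha0 hc0
    have hac1 : a * c ≤ 1 := mul_le_one₀ ha1 hc0 hc1
    have hsq : (a * c * wt' y) ^ 2 ≤ 16 * (a * wt y * c) := by
      have h10 := wt'_sq y
      have h11 := wt_nonneg y
      calc (a * c * wt' y) ^ 2 = (a * c) * (a * c) * wt' y ^ 2 := by ring
        _ ≤ (a * c) * 1 * (16 * wt y) := by gcongr
        _ = 16 * (a * wt y * c) := by ring
    have hY : (a * c * wt' y) * v ≤ (a * c * wt' y) ^ 2 / (16 * T) + 4 * T * v ^ 2 := by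
      have h12 : 0 ≤ (a * c * wt' y - 8 * T * v) ^ 2 / (16 * T) := by positivity
      have h13 : (a * c * wt' y - 8 * T * v) ^ 2 / (16 * T) =
          (a * c * wt' y) ^ 2 / (16 * T) + 4 * T * v ^ 2 - (a * c * wt' y) * v := by
        field_simp
        ring
      linarith
    have h14 : (a * c * wt' y) ^ 2 / (16 * T) ≤ a * wt y * c / T := by
      rw [div_le_div_iff₀ (by positivity) hT]
      nlinarith
    have h15 : 4 * T * v ^ 2 ≤ 4 * T * ‖u t x‖ ^ 2 / Lz ^ 2 := by
      rw [mul_div_assoc]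
      gcongr
    have h16 : a * (wt' y * v) * c = (a * c * wt' y) * v := by ring
    linarith

/-- comparison of integrals, the smaller function need not be integrable -/
theorem integral_le_of_le' {α : Type*} [MeasurableSpace α] {μ : Measure α} {f g : α → ℝ}
    (hg : Integrable g μ) (hg0 : ∀ x, 0 ≤ g x) (hfg : ∀ x, f x ≤ g x) :
    ∫ x, f x ∂μ ≤ ∫ x, g x ∂μ := by
  by_cases hf : Integrable f μ
  · exact integral_mono hf hg hfg
  · rw [integral_undef hf]
    exact integral_nonneg hg0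

/-- the weighted measure of the level sets of `ξ` grows at most like `E² T² / L²` -/
theorem level_transport (hm : 2 ≤ m) (h : EulerSolution m T u p)
    (hax : ∀ t ∈ Ico 0 T, AxisymNoSwirl (u t)) {E : ℝ}
    (hE : ∀ t ∈ Ico 0 T, ∫⁻ x, ‖u t x‖ₑ ^ 2 ≤ ENNReal.ofReal (E ^ 2)) {l Lz : ℝ} (hl : 0 < l)
    (hLz : 0 < Lz) (z0 : ℝ) {I0 : ℝ} (hI0 : 0 ≤ I0)
    (hI : ∫⁻ x : V m, ENNReal.ofReal (Phi l (curl (u 0) x / rad x ^ (m - 1)) *
      wt ((ax x - z0) / Lz)) ≤ ENNReal.ofReal I0) {t : ℝ} (ht : t ∈ Ico 0 T) :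
    ∫⁻ x : V m, ENNReal.ofReal (Phi l (curl (u t) x / rad x ^ (m - 1)) *
      wt ((ax x - z0) / Lz)) ≤
      ENNReal.ofReal (Real.exp 1 * (I0 + 4 * T ^ 2 * E ^ 2 / Lz ^ 2)) := by
  have hexp1 : 1 ≤ Real.exp 1 := Real.one_le_exp zero_le_one
  rcases ht.1.eq_or_lt with h0 | h0
  · rw [← h0]
    refine hI.trans (ENNReal.ofReal_le_ofReal ?_)
    have h1 : 0 ≤ 4 * T ^ 2 * E ^ 2 / Lz ^ 2 := by positivity
    nlinarith
  have hm1 : 1 ≤ m := by omega
  obtain ⟨C, hC0, hC⟩ := h.bounds01 ht.2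
  have hT : 0 < T := h0.trans ht.2
  -- the integrand
  have hG : ∀ s ∈ Ico 0 T, ∀ x : V m, 0 < rad x →
      Phi l (curl (u s) x / rad x ^ (m - 1)) = Phi l (xi u (s, x)) := by
    intro s hs x hx
    rw [curl_eq_abs_om hm1 (h.contDiff hs) (hax s hs) hx, ← Phi_even l (xi u (s, x))]
    congr 1
    unfold xi
    rw [abs_div, abs_of_pos (pow_pos hx (m - 1))]
  have hG0 : ∀ s ∈ Ico 0 T, ∀ x : V m, rad x = 0 →
      Phi l (curl (u s) x / rad x ^ (m - 1)) = 0 := by
    intro s hs x hx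
    rw [curl_axis hm1 (h.contDiff hs) (hax s hs) hx, zero_div]
    exact Phi_zero hl (by simp [hl.le])
  -- integrals
  have hcs : ∀ n : ℕ, ∀ s, 0 ≤ s → ∀ x : V m, x ∉ Metric.closedBall (0 : V m) n →
      den u l Lz z0 C n (s, x) = 0 := by
    intro n s hs x hx
    unfold den
    rw [chi_compact hC0 C n (q := (s, x)) hs hx, mul_zero]
  have hcont : ∀ n : ℕ, ContinuousOn (fun s => ∫ x, den u l Lz z0 C n (s, x)) (Icc 0 t) := by
    intro n
    refine continuousOn_integral_of_compact_support (isCompact_closedBall (0 : V m) n)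
      (f := fun s x => den u l Lz z0 C n (s, x)) ?_ fun s x hs hx => hcs n s hs.1 x hx
    refine (den_continuousOn h l Lz z0 C n).mono
      fun q hq => ⟨⟨hq.1.1, hq.1.2.trans_lt ht.2⟩, hq.2⟩
  have hder : ∀ n : ℕ, ∀ s ∈ Ioo 0 t, HasDerivAt (fun s => ∫ x, den u l Lz z0 C n (s, x))
      (∫ x, fderiv ℝ (den u l Lz z0 C n) (s, x) (1, u s x)) s := by
    intro n s hs
    have hs' : s ∈ Ico 0 T := ⟨hs.1.le, hs.2.trans ht.2⟩
    exact hasDerivAt_integral_drift (isCompact_closedBall (0 : V m) n)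
      (den_contDiffOn h l Lz z0 C n)
      (fun s' hs' x hx => hcs n s' hs'.1.le x hx) ⟨hs.1, hs.2.trans ht.2⟩
      ((h.contDiff hs').of_le (by exact_mod_cast le_top)) (fun x => h.divfree s hs' x)
  have hint : ∀ n : ℕ, ∀ s ∈ Ico 0 T, Integrable fun x => den u l Lz z0 C n (s, x) := by
    intro n s hs
    refine Continuous.integrable_of_hasCompactSupport ?_
      (HasCompactSupport.intro (isCompact_closedBall (0 : V m) n) fun x hx => hcs n s hs.1 x hx)
    rw [← continuousOn_univ]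
    exact (den_continuousOn h l Lz z0 C n).comp (by fun_prop) fun x _ => ⟨hs, mem_univ _⟩
  -- the energy
  have hsqe : ∀ s (x : V m), ‖u s x‖ₑ ^ 2 = ‖‖u s x‖ ^ 2‖ₑ := by
    intro s x
    rw [← enorm_norm (u s x), enorm_pow]
  have hEint : ∀ s ∈ Ico 0 T, Integrable (fun x => ‖u s x‖ ^ 2) := by
    intro s hs
    refine ⟨((h.contDiff hs).continuous.norm.pow 2).aestronglyMeasurable, ?_⟩
    unfold HasFiniteIntegral
    simp_rw [← hsqe]
    exact lt_of_le_of_lt (hE s hs) ENNReal.ofReal_lt_top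
  have hEle : ∀ s ∈ Ico 0 T, ∫ x, ‖u s x‖ ^ 2 ≤ E ^ 2 := by
    intro s hs
    have h1 : ENNReal.ofReal (∫ x, ‖u s x‖ ^ 2) ≤ ENNReal.ofReal (E ^ 2) := by
      rw [ofReal_integral_eq_lintegral_ofReal (hEint s hs)
        (Eventually.of_forall fun z => by positivity)]
      refine le_trans (le_of_eq ?_) (hE s hs)
      refine lintegral_congr fun z => ?_
      rw [hsqe, Real.enorm_of_nonneg (by positivity)]
    exact (ENNReal.ofReal_le_ofReal_iff (by positivity)).mp h1
  -- the differential inequality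
  have hdin : ∀ n : ℕ, ∀ s ∈ Ioo 0 t, ∫ x, fderiv ℝ (den u l Lz z0 C n) (s, x) (1, u s x) ≤
      (∫ x, den u l Lz z0 C n (s, x)) / T + 4 * T * E ^ 2 / Lz ^ 2 := by
    intro n s hs
    have hs1 : s ∈ Ioo 0 T := ⟨hs.1, hs.2.trans ht.2⟩
    have hs' : s ∈ Ico 0 T := ⟨hs1.1.le, hs1.2⟩
    have hs2 : s ∈ Icc 0 t := ⟨hs.1.le, hs.2.le⟩
    have hi1 : Integrable (fun x => den u l Lz z0 C n (s, x) / T) := (hint n s hs').div_const T
    have hi2 : Integrable (fun x => 4 * T * ‖u s x‖ ^ 2 / Lz ^ 2) :=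
      ((hEint s hs').const_mul (4 * T)).div_const (Lz ^ 2)
    refine (integral_le_of_le' (hi1.add hi2) (fun x => ?_) (fun x => den_line hm h hax hLz n hs1
      (fun x => (hC s hs2 x).1) (fun x => (hC s hs2 x).2) x)).trans ?_
    · exact add_nonneg (div_nonneg (den_nonneg _ _ _ _ _ _ _) hT.le) (by positivity)
    · have e1 : ∫ x, (den u l Lz z0 C n (s, x) / T + 4 * T * ‖u s x‖ ^ 2 / Lz ^ 2) =
          (∫ x, den u l Lz z0 C n (s, x)) / T + 4 * T * (∫ x, ‖u s x‖ ^ 2) / Lz ^ 2 := by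
        rw [integral_add hi1 hi2, integral_div, integral_div, integral_const_mul]
      simp only [Pi.add_apply]
      rw [e1]
      have := hEle s hs'
      gcongr
  have hmain : ∀ n : ℕ, ∫ x, den u l Lz z0 C n (t, x) ≤
      Real.exp 1 * ((∫ x, den u l Lz z0 C n (0, x)) + 4 * T ^ 2 * E ^ 2 / Lz ^ 2) := by
    intro n
    set N : ℝ → ℝ := fun s => ∫ x, den u l Lz z0 C n (s, x) with hN
    set K : ℝ := 4 * T * E ^ 2 / Lz ^ 2 with hK
    have hK0 : 0 ≤ K := by positivity
    set g : ℝ → ℝ := fun s => Real.exp (-(s / T)) * N s - K * s with hg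
    have hgd : ∀ s ∈ Ioo 0 t, HasDerivAt g (Real.exp (-(s / T)) * (-(1 / T)) * N s +
        Real.exp (-(s / T)) * (∫ x, fderiv ℝ (den u l Lz z0 C n) (s, x) (1, u s x)) - K) s := by
      intro s hs
      have h1 : HasDerivAt (fun s : ℝ => Real.exp (-(s / T))) (Real.exp (-(s / T)) * (-(1 / T))) s := by
        have h2 : HasDerivAt (fun s : ℝ => -(s / T)) (-(1 / T)) s :=
          ((hasDerivAt_id s).div_const T).fun_neg
        exact h2.exp
      have h3 := h1.fun_mul (hder n s hs)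
      have h4 : HasDerivAt (fun s : ℝ => K * s) K s := by
        simpa using (hasDerivAt_id s).const_mul K
      exact h3.sub h4
    have hanti : AntitoneOn g (Icc 0 t) := by
      refine antitoneOn_of_deriv_nonpos (convex_Icc 0 t) ?_ ?_ ?_
      · refine ContinuousOn.sub (ContinuousOn.mul (by fun_prop) (hcont n)) (by fun_prop)
      · rw [interior_Icc]
        exact fun s hs => (hgd s hs).differentiableAt.differentiableWithinAt
      · rw [interior_Icc]
        intro s hs
        rw [(hgd s hs).deriv]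
        have h1 := hdin n s hs
        have he0 := Real.exp_pos (-(s / T))
        have he1 : Real.exp (-(s / T)) ≤ 1 := by
          rw [Real.exp_le_one_iff]
          have := div_nonneg hs.1.le hT.le
          linarith
        have h2 : Real.exp (-(s / T)) *
            (∫ x, fderiv ℝ (den u l Lz z0 C n) (s, x) (1, u s x)) ≤
            Real.exp (-(s / T)) * (N s / T + K) := mul_le_mul_of_nonneg_left h1 he0.le
        have h3 : Real.exp (-(s / T)) * K ≤ K := mul_le_of_le_one_left hK0 he1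
        have h4 : Real.exp (-(s / T)) * (-(1 / T)) * N s + Real.exp (-(s / T)) * (N s / T + K) =
            Real.exp (-(s / T)) * K := by ring
        linarith
    have h1 := hanti (left_mem_Icc.2 h0.le) (right_mem_Icc.2 h0.le) h0.le
    simp only [hg, mul_zero, sub_zero, zero_div, neg_zero, Real.exp_zero, one_mul] at h1
    have hN0 : 0 ≤ N 0 := integral_nonneg fun x => den_nonneg _ _ _ _ _ _ _
    have hNt : 0 ≤ N t := integral_nonneg fun x => den_nonneg _ _ _ _ _ _ _
    have h2 : Real.exp (-(t / T)) * N t ≤ N 0 + K * T := by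
      have : K * t ≤ K * T := by
        gcongr
        exact ht.2.le
      linarith
    have h3 : Real.exp (-1) ≤ Real.exp (-(t / T)) := by
      rw [Real.exp_le_exp, neg_le_neg_iff, div_le_one hT]
      exact ht.2.le
    have h4 : Real.exp (-1) * N t ≤ N 0 + K * T :=
      (mul_le_mul_of_nonneg_right h3 hNt).trans h2
    have h5 : N t = Real.exp 1 * (Real.exp (-1) * N t) := by
      rw [← mul_assoc, ← Real.exp_add]
      simp
    have h6 : K * T = 4 * T ^ 2 * E ^ 2 / Lz ^ 2 := by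
      rw [hK]; ring
    rw [← h6]
    calc N t = Real.exp 1 * (Real.exp (-1) * N t) := h5
      _ ≤ Real.exp 1 * (N 0 + K * T) := by gcongr
  have hlint : ∀ n : ℕ, ∀ s ∈ Ico 0 T, ∫⁻ x, ENNReal.ofReal (den u l Lz z0 C n (s, x)) =
      ENNReal.ofReal (∫ x, den u l Lz z0 C n (s, x)) := fun n s hs =>
    (ofReal_integral_eq_lintegral_ofReal (hint n s hs)
      (Eventually.of_forall fun x => den_nonneg _ _ _ _ _ _ _)).symm
  have hinit : ∀ n : ℕ, ∫ x, den u l Lz z0 C n (0, x) ≤ I0 := by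
    intro n
    rw [← ENNReal.ofReal_le_ofReal_iff hI0, ← hlint n 0 ⟨le_rfl, hT⟩]
    refine (lintegral_mono fun x => ENNReal.ofReal_le_ofReal ?_).trans hI
    rcases (rad_nonneg x).eq_or_lt with hr | hr
    · have : chi C C n ((0 : ℝ), x) = 0 := (chi_near_axis C C n (q := (0, x)) hr.symm).self_of_nhds
      unfold den
      rw [this, mul_zero]
      exact mul_nonneg (Phi_nonneg _ _) (wt_nonneg _)
    · rw [hG 0 ⟨le_rfl, hT⟩ x hr]
      unfold den
      exact mul_le_of_le_one_right (mul_nonneg (Phi_nonneg _ _) (wt_nonneg _)) (chi_le_one _ _ _ _)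
  calc ∫⁻ x : V m, ENNReal.ofReal (Phi l (curl (u t) x / rad x ^ (m - 1)) *
        wt ((ax x - z0) / Lz))
      ≤ ∫⁻ x : V m, liminf (fun n : ℕ => ENNReal.ofReal (den u l Lz z0 C n (t, x))) atTop := by
        refine lintegral_mono fun x => ?_
        rcases (rad_nonneg x).eq_or_lt with hr | hr
        · rw [hG0 t ht x hr.symm]; simp
        · rw [hG t ht x hr]
          have h1 : Tendsto (fun n : ℕ => ENNReal.ofReal (den u l Lz z0 C n (t, x))) atTop
              (𝓝 (ENNReal.ofReal (Phi l (xi u (t, x)) * wt ((ax x - z0) / Lz)))) := by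
            refine (ENNReal.continuous_ofReal.tendsto _).comp ?_
            unfold den
            simpa using (chi_tendsto C C (q := (t, x)) hr).const_mul
              (Phi l (xi u (t, x)) * wt ((ax x - z0) / Lz))
          exact h1.liminf_eq.ge
    _ ≤ liminf (fun n : ℕ => ∫⁻ x : V m, ENNReal.ofReal (den u l Lz z0 C n (t, x))) atTop := by
        refine lintegral_liminf_le' fun n => ?_
        exact (hint n t ht).aestronglyMeasurable.aemeasurable.ennreal_ofReal
    _ ≤ liminf (fun _ : ℕ => ENNReal.ofReal (Real.exp 1 *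
          (I0 + 4 * T ^ 2 * E ^ 2 / Lz ^ 2))) atTop := by
        refine liminf_le_liminf (Eventually.of_forall fun n => ?_)
        rw [hlint n t ht]
        refine ENNReal.ofReal_le_ofReal ((hmain n).trans ?_)
        have := hinit n
        gcongr
    _ = _ := by simp

end Pool.Agent.Lib.MP_c167ed_anB
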