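import Pool.Agent.Lib.MP_c167ed_anB.Init
import Pool.Agent.Lib.MP_c167ed_anB.Trans
import Pool.Agent.Lib.MP_c167ed_an.NearA

/-!
# MP_c167ed_an, dimension six: level sets of `ω/r⁴` in slabs, all times
-/

open MeasureTheory Set Filter Topology
open scoped ContDiff ENNReal NNReal

namespace Pool.Agent.Lib.MP_c167ed_anB

open Pool.Agent.Lib.MP_c167ed_an

variable {T : ℝ} {u : ℝ → V 5 → V 5} {p : ℝ → V 5 → ℝ}

theorem xi_measurable {v : V 5 → V 5} (hv : ContDiff ℝ ∞ v) :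
    Measurable (fun x : V 5 => curl v x / rad x ^ (5 - 1)) :=
  (continuous_curl hv).measurable.div ((continuous_rad.measurable).pow_const _)

/-- the measure of the level sets in a slab of width `4` -/
theorem level_bound (hT : 0 < T) (h : EulerSolution 5 T u p)
    (hax : ∀ t ∈ Ico 0 T, AxisymNoSwirl (u t)) {E : ℝ}
    (hE : ∀ t ∈ Ico 0 T, ∫⁻ x, ‖u t x‖ₑ ^ 2 ≤ ENNReal.ofReal (E ^ 2)) :
    ∃ C : ℝ, 0 ≤ C ∧ ∀ t ∈ Ico 0 T, ∀ z0 τ : ℝ, 2 ≤ τ →
      volume {x : V 5 | |ax x - z0| ≤ 2 ∧ τ < curl (u t) x / rad x ^ (5 - 1)} ≤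
        ENNReal.ofReal (C * τ ^ (-(23 / 15) : ℝ)) := by
  have h00 : (0 : ℝ) ∈ Ico 0 T := ⟨le_rfl, hT⟩
  obtain ⟨C0, hC0, hI⟩ := level_init (h.contDiff h00) (hax 0 h00) (fun k => by
    obtain ⟨C, hC⟩ := h.sobolev k 0 hT
    exact (hC 0 (by simp)).trans_lt ENNReal.coe_lt_top)
  set C1 : ℝ := Real.exp 1 * (4 * C0 + T ^ 2 * E ^ 2) with hC1
  have hC10 : 0 ≤ C1 := by positivity
  refine ⟨8 * C1, by positivity, ?_⟩
  intro t ht z0 τ hτ
  set l : ℝ := τ / 2 with hl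
  have hl1 : 1 ≤ l := by rw [hl]; linarith
  have hl0 : 0 < l := by linarith
  set Lz : ℝ := 4 * l ^ (4 / 5 : ℝ) with hLz
  have hlp : 1 ≤ l ^ (4 / 5 : ℝ) := Real.one_le_rpow hl1 (by norm_num)
  have hLz4 : 4 ≤ Lz := by rw [hLz]; linarith
  have hLz0 : 0 < Lz := by linarith
  have key := level_transport (m := 5) (by norm_num) h hax hE hl0 hLz0 z0 (by positivity)
    (hI l Lz z0 hl0 hLz0) ht
  -- the bound of the right side
  have hb : Real.exp 1 * (C0 * (l ^ (-(5 / 3) : ℝ) * Lz ^ (1 / 6 : ℝ)) +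
      4 * T ^ 2 * E ^ 2 / Lz ^ 2) ≤ C1 * l ^ (-(23 / 15) : ℝ) := by
    have h1 : l ^ (-(5 / 3) : ℝ) * Lz ^ (1 / 6 : ℝ) ≤ 4 * l ^ (-(23 / 15) : ℝ) := by
      rw [hLz, Real.mul_rpow (by norm_num) (by positivity), ← Real.rpow_mul hl0.le]
      have h2 : (4 : ℝ) ^ (1 / 6 : ℝ) ≤ 4 := by
        calc (4 : ℝ) ^ (1 / 6 : ℝ) ≤ (4 : ℝ) ^ (1 : ℝ) :=
              Real.rpow_le_rpow_of_exponent_le (by norm_num) (by norm_num)
          _ = 4 := Real.rpow_one _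
      have h3 : l ^ (-(5 / 3) : ℝ) * l ^ (4 / 5 * (1 / 6) : ℝ) = l ^ (-(23 / 15) : ℝ) := by
        rw [← Real.rpow_add hl0]
        norm_num
      calc l ^ (-(5 / 3) : ℝ) * ((4 : ℝ) ^ (1 / 6 : ℝ) * l ^ (4 / 5 * (1 / 6) : ℝ)) =
            (4 : ℝ) ^ (1 / 6 : ℝ) * (l ^ (-(5 / 3) : ℝ) * l ^ (4 / 5 * (1 / 6) : ℝ)) := by ring
        _ ≤ 4 * l ^ (-(23 / 15) : ℝ) := by
          rw [h3]
          gcongr
    have h4 : 4 * T ^ 2 * E ^ 2 / Lz ^ 2 ≤ T ^ 2 * E ^ 2 * l ^ (-(23 / 15) : ℝ) := by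
      have h5 : (l ^ (4 / 5 : ℝ)) ^ 2 = l ^ (8 / 5 : ℝ) := by
        rw [← Real.rpow_natCast (l ^ (4 / 5 : ℝ)) 2, ← Real.rpow_mul hl0.le]
        norm_num
      have h6 : 4 * T ^ 2 * E ^ 2 / Lz ^ 2 = T ^ 2 * E ^ 2 * (1 / 4 * l ^ (-(8 / 5) : ℝ)) := by
        rw [hLz, mul_pow, h5, Real.rpow_neg hl0.le]
        have h7 : 0 < l ^ (8 / 5 : ℝ) := by positivity
        field_simp
      have h8 : l ^ (-(8 / 5) : ℝ) ≤ l ^ (-(23 / 15) : ℝ) :=
        Real.rpow_le_rpow_of_exponent_le hl1 (by norm_num)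
      have h9 : 0 ≤ l ^ (-(8 / 5) : ℝ) := by positivity
      rw [h6]
      have h10 : 1 / 4 * l ^ (-(8 / 5) : ℝ) ≤ l ^ (-(23 / 15) : ℝ) := by linarith
      gcongr
    calc Real.exp 1 * (C0 * (l ^ (-(5 / 3) : ℝ) * Lz ^ (1 / 6 : ℝ)) +
          4 * T ^ 2 * E ^ 2 / Lz ^ 2) ≤
          Real.exp 1 * (C0 * (4 * l ^ (-(23 / 15) : ℝ)) + T ^ 2 * E ^ 2 * l ^ (-(23 / 15) : ℝ)) := by
          gcongr
      _ = C1 * l ^ (-(23 / 15) : ℝ) := by rw [hC1]; ring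
  -- Chebyshev
  set g : V 5 → ℝ≥0∞ := fun x => ENNReal.ofReal (Phi l (curl (u t) x / rad x ^ (5 - 1)) *
      wt ((ax x - z0) / Lz)) with hg
  have hgm : Measurable g := by
    refine Measurable.ennreal_ofReal (Measurable.mul ?_ ?_)
    · exact (Phi_contDiff l).continuous.measurable.comp (xi_measurable (h.contDiff ht))
    · exact wt_contDiff.continuous.measurable.comp
        (((continuous_ax.measurable).sub_const z0).div_const Lz)
  have hsub : {x : V 5 | |ax x - z0| ≤ 2 ∧ τ < curl (u t) x / rad x ^ (5 - 1)} ⊆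
      {x : V 5 | ENNReal.ofReal (1 / 2) ≤ g x} := by
    rintro x ⟨hx1, hx2⟩
    simp only [mem_setOf_eq, hg]
    refine ENNReal.ofReal_le_ofReal ?_
    have h1 : 9 / 10 ≤ Phi l (curl (u t) x / rad x ^ (5 - 1)) := by
      refine Phi_lower hl0 ?_
      rw [hl]
      refine le_trans ?_ (le_abs_self _)
      linarith
    have h2 : 9 / 16 ≤ wt ((ax x - z0) / Lz) := by
      refine wt_lower ?_
      rw [abs_div, abs_of_pos hLz0, div_le_iff₀ hLz0]
      linarith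
    have h3 := Phi_nonneg l (curl (u t) x / rad x ^ (5 - 1))
    calc (1 / 2 : ℝ) ≤ 9 / 10 * (9 / 16) := by norm_num
      _ ≤ Phi l (curl (u t) x / rad x ^ (5 - 1)) * wt ((ax x - z0) / Lz) := by gcongr
  have hch := mul_meas_ge_le_lintegral hgm (ENNReal.ofReal (1 / 2)) (μ := volume)
  have h1 : ENNReal.ofReal (1 / 2) *
      volume {x : V 5 | |ax x - z0| ≤ 2 ∧ τ < curl (u t) x / rad x ^ (5 - 1)} ≤
      ENNReal.ofReal (C1 * l ^ (-(23 / 15) : ℝ)) := by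
    calc ENNReal.ofReal (1 / 2) *
        volume {x : V 5 | |ax x - z0| ≤ 2 ∧ τ < curl (u t) x / rad x ^ (5 - 1)} ≤
        ENNReal.ofReal (1 / 2) * volume {x : V 5 | ENNReal.ofReal (1 / 2) ≤ g x} := by
          gcongr
      _ ≤ ∫⁻ x, g x := hch
      _ ≤ _ := key
      _ ≤ _ := ENNReal.ofReal_le_ofReal hb
  have h2 : ENNReal.ofReal 2 * ENNReal.ofReal (1 / 2) = 1 := by
    rw [← ENNReal.ofReal_mul (by norm_num)]
    norm_num
  have h3 : C1 * l ^ (-(23 / 15) : ℝ) ≤ 4 * C1 * τ ^ (-(23 / 15) : ℝ) := by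
    have hτ0 : 0 < τ := by linarith
    have h4 : l ^ (-(23 / 15) : ℝ) = (2 : ℝ) ^ (23 / 15 : ℝ) * τ ^ (-(23 / 15) : ℝ) := by
      rw [hl, Real.div_rpow hτ0.le (by norm_num), Real.rpow_neg (by norm_num : (0 : ℝ) ≤ 2)]
      field_simp
    have h5 : (2 : ℝ) ^ (23 / 15 : ℝ) ≤ 4 := by
      calc (2 : ℝ) ^ (23 / 15 : ℝ) ≤ (2 : ℝ) ^ (2 : ℝ) :=
            Real.rpow_le_rpow_of_exponent_le (by norm_num) (by norm_num)
        _ = 4 := by norm_num
    rw [h4]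
    calc C1 * ((2 : ℝ) ^ (23 / 15 : ℝ) * τ ^ (-(23 / 15) : ℝ)) ≤
          C1 * (4 * τ ^ (-(23 / 15) : ℝ)) := by gcongr
      _ = 4 * C1 * τ ^ (-(23 / 15) : ℝ) := by ring
  calc volume {x : V 5 | |ax x - z0| ≤ 2 ∧ τ < curl (u t) x / rad x ^ (5 - 1)} =
        ENNReal.ofReal 2 * (ENNReal.ofReal (1 / 2) *
          volume {x : V 5 | |ax x - z0| ≤ 2 ∧ τ < curl (u t) x / rad x ^ (5 - 1)}) := by
        rw [← mul_assoc, h2, one_mul]
    _ ≤ ENNReal.ofReal 2 * ENNReal.ofReal (C1 * l ^ (-(23 / 15) : ℝ)) := by gcongr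
    _ ≤ ENNReal.ofReal 2 * ENNReal.ofReal (4 * C1 * τ ^ (-(23 / 15) : ℝ)) := by
        gcongr
    _ = ENNReal.ofReal (8 * C1 * τ ^ (-(23 / 15) : ℝ)) := by
        rw [← ENNReal.ofReal_mul (by norm_num)]
        congr 1
        ring

/-- integral of the upper tail -/
theorem tail_integral {C Λ : ℝ} (hC : 0 ≤ C) (hΛ : 0 < Λ) :
    ∫⁻ τ in Ioi Λ, ENNReal.ofReal (C * τ ^ (-(23 / 15) : ℝ)) =
      ENNReal.ofReal (C * (15 / 8 * Λ ^ (-(8 / 15) : ℝ))) := by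
  have h1 : IntegrableOn (fun τ : ℝ => C * τ ^ (-(23 / 15) : ℝ)) (Ioi Λ) :=
    (integrableOn_Ioi_rpow_of_lt (by norm_num) hΛ).const_mul C
  rw [← ofReal_integral_eq_lintegral_ofReal h1]
  · congr 1
    rw [integral_const_mul, integral_Ioi_rpow_of_lt (by norm_num) hΛ]
    have e : (-(23 / 15) + 1 : ℝ) = -(8 / 15) := by norm_num
    rw [e]
    ring
  · refine (ae_restrict_iff' measurableSet_Ioi).2 (ae_of_all _ fun τ hτ => ?_)
    have : 0 < τ := hΛ.trans hτ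
    positivity

/-- the integral of the vorticity over a ball centred on the axis -/
theorem ball_bound (hT : 0 < T) (h : EulerSolution 5 T u p)
    (hax : ∀ t ∈ Ico 0 T, AxisymNoSwirl (u t)) {E : ℝ}
    (hE : ∀ t ∈ Ico 0 T, ∫⁻ x, ‖u t x‖ₑ ^ 2 ≤ ENNReal.ofReal (E ^ 2)) :
    ∃ C : ℝ, 0 ≤ C ∧ ∀ t ∈ Ico 0 T, ∀ x0 : V 5, rad x0 = 0 → ∀ s : ℝ, 0 < s → s ≤ 1 →
      ∫ y in Metric.closedBall x0 (2 * s), curl (u t) y ≤
        s ^ (5 + 2) * (C * s ^ (-(14 / 15) : ℝ)) := by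
  obtain ⟨C1, hC1, hlev⟩ := level_bound hT h hax hE
  set cV : ℝ := (volume (Metric.ball (0 : V 5) 1)).toReal with hcV
  have hcV0 : 0 ≤ cV := ENNReal.toReal_nonneg
  refine ⟨16 * (128 * cV + 2 * C1), by positivity, ?_⟩
  intro t ht x0 hx0 s hs hs1
  set B := Metric.closedBall x0 (2 * s) with hB
  have hBm : MeasurableSet B := Metric.isClosed_closedBall.measurableSet
  have hv := h.contDiff ht
  have hvol : volume B = ENNReal.ofReal ((2 * s) ^ (5 + 1) * cV) := by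
    rw [hB, Measure.addHaar_closedBall _ _ (by positivity)]
    rw [ENNReal.ofReal_mul (by positivity), hcV, ENNReal.ofReal_toReal measure_ball_lt_top.ne]
    simp
  set ξ : V 5 → ℝ := fun y => curl (u t) y / rad y ^ (5 - 1) with hξ
  have hξm : Measurable ξ := xi_measurable hv
  have hξ0 : ∀ y, 0 ≤ ξ y := fun y => div_nonneg (curl_nonneg _ y) (pow_nonneg (rad_nonneg y) _)
  have hinB : ∀ y ∈ B, rad y ≤ 2 * s ∧ |ax y - ax x0| ≤ 2 := by
    intro y hy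
    have h1 : ‖y - x0‖ ≤ 2 * s := by
      rw [← dist_eq_norm]
      exact hy
    constructor
    · have h2 := rad_sub_le y x0
      rw [hx0, sub_zero, abs_of_nonneg (rad_nonneg y)] at h2
      exact h2.trans h1
    · have h2 : |ax y - ax x0| ≤ ‖y - x0‖ := by
        have := PiLp.norm_apply_le (y - x0) (Fin.last 5)
        simpa [ax] using this
      linarith
  have hpt : ∀ y ∈ B, ENNReal.ofReal (curl (u t) y) ≤
      ENNReal.ofReal ((2 * s) ^ 4) * ENNReal.ofReal (ξ y) := by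
    intro y hy
    rw [← ENNReal.ofReal_mul (by positivity)]
    refine ENNReal.ofReal_le_ofReal ?_
    rcases (rad_nonneg y).eq_or_lt with h0 | h0
    · rw [curl_axis (by norm_num) hv (hax t ht) h0.symm]
      have := hξ0 y
      positivity
    · have h2 : curl (u t) y = rad y ^ 4 * ξ y := by
        simp only [hξ]
        field_simp
      have h3 := (hinB y hy).1
      have h4 := hξ0 y
      rw [h2]
      gcongr
  -- layer cake
  set Λ : ℝ := 2 * s ^ (-(31 / 8) : ℝ) with hΛ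
  have hsp : 1 ≤ s ^ (-(31 / 8) : ℝ) := Real.one_le_rpow_of_pos_of_le_one_of_nonpos hs hs1 (by norm_num)
  have hΛ2 : 2 ≤ Λ := by rw [hΛ]; linarith
  have hΛ0 : 0 < Λ := by linarith
  have hcake : ∫⁻ y in B, ENNReal.ofReal (ξ y) ≤
      ENNReal.ofReal ((2 * s) ^ (5 + 1) * cV * Λ + C1 * (15 / 8 * Λ ^ (-(8 / 15) : ℝ))) := by
    rw [lintegral_eq_lintegral_meas_lt (volume.restrict B) (Eventually.of_forall hξ0)
      hξm.aemeasurable, ← Ioc_union_Ioi_eq_Ioi hΛ0.le]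
    refine (lintegral_union_le _ _ _).trans ?_
    rw [ENNReal.ofReal_add (by positivity) (by positivity)]
    refine add_le_add ?_ ?_
    · calc ∫⁻ τ in Ioc 0 Λ, (volume.restrict B) {a | τ < ξ a} ≤ ∫⁻ _τ in Ioc 0 Λ, volume B := by
            refine lintegral_mono fun τ => ?_
            rw [Measure.restrict_apply' hBm]
            exact measure_mono inter_subset_right
        _ = ENNReal.ofReal ((2 * s) ^ (5 + 1) * cV * Λ) := by
            rw [setLIntegral_const, Real.volume_Ioc, hvol, ← ENNReal.ofReal_mul (by positivity),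
              sub_zero]
    · rw [← tail_integral hC1 hΛ0]
      refine setLIntegral_mono' measurableSet_Ioi fun τ hτ => ?_
      rw [Measure.restrict_apply' hBm]
      refine (measure_mono ?_).trans (hlev t ht (ax x0) τ (hΛ2.trans (le_of_lt hτ)))
      rintro y ⟨hy1, hy2⟩
      exact ⟨(hinB y hy2).2, hy1⟩
  have hexp : (2 * s) ^ (5 + 1) * cV * Λ + C1 * (15 / 8 * Λ ^ (-(8 / 15) : ℝ)) ≤
      (128 * cV + 2 * C1) * s ^ (31 / 15 : ℝ) := by
    have e1 : (2 * s) ^ (5 + 1) * cV * Λ = 128 * cV * s ^ (17 / 8 : ℝ) := by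
      have e2 : s ^ 6 * s ^ (-(31 / 8) : ℝ) = s ^ (17 / 8 : ℝ) := by
        rw [← Real.rpow_natCast s 6, ← Real.rpow_add hs]
        norm_num
      rw [hΛ, ← e2]
      ring
    have e3 : s ^ (17 / 8 : ℝ) ≤ s ^ (31 / 15 : ℝ) :=
      Real.rpow_le_rpow_of_exponent_ge hs hs1 (by norm_num)
    have e4 : 15 / 8 * Λ ^ (-(8 / 15) : ℝ) ≤ 2 * s ^ (31 / 15 : ℝ) := by
      have e5 : Λ ^ (-(8 / 15) : ℝ) = (2 : ℝ) ^ (-(8 / 15) : ℝ) * s ^ (31 / 15 : ℝ) := by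
        rw [hΛ, Real.mul_rpow (by norm_num) (by positivity), ← Real.rpow_mul hs.le]
        norm_num
      have e6 : (2 : ℝ) ^ (-(8 / 15) : ℝ) ≤ 1 :=
        Real.rpow_le_one_of_one_le_of_nonpos (by norm_num) (by norm_num)
      have e7 : 0 ≤ s ^ (31 / 15 : ℝ) := by positivity
      rw [e5]
      nlinarith
    rw [e1]
    calc 128 * cV * s ^ (17 / 8 : ℝ) + C1 * (15 / 8 * Λ ^ (-(8 / 15) : ℝ)) ≤
          128 * cV * s ^ (31 / 15 : ℝ) + C1 * (2 * s ^ (31 / 15 : ℝ)) := by gcongr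
      _ = _ := by ring
  have hlin : ∫⁻ y in B, ENNReal.ofReal (curl (u t) y) ≤
      ENNReal.ofReal ((2 * s) ^ 4 * ((128 * cV + 2 * C1) * s ^ (31 / 15 : ℝ))) := by
    calc ∫⁻ y in B, ENNReal.ofReal (curl (u t) y)
        ≤ ∫⁻ y in B, ENNReal.ofReal ((2 * s) ^ 4) * ENNReal.ofReal (ξ y) :=
          setLIntegral_mono' hBm hpt
      _ = ENNReal.ofReal ((2 * s) ^ 4) * ∫⁻ y in B, ENNReal.ofReal (ξ y) :=
          lintegral_const_mul' _ _ ENNReal.ofReal_ne_top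
      _ ≤ ENNReal.ofReal ((2 * s) ^ 4) *
          ENNReal.ofReal ((128 * cV + 2 * C1) * s ^ (31 / 15 : ℝ)) := by
          gcongr
          exact hcake.trans (ENNReal.ofReal_le_ofReal hexp)
      _ = _ := by rw [← ENNReal.ofReal_mul (by positivity)]
  have hint : ∫ y in B, curl (u t) y = (∫⁻ y in B, ENNReal.ofReal (curl (u t) y)).toReal := by
    rw [integral_eq_lintegral_of_nonneg_ae (Eventually.of_forall fun y => curl_nonneg _ y)
      (continuous_curl hv).aestronglyMeasurable]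
  rw [hint]
  refine (ENNReal.toReal_le_of_le_ofReal (by positivity) hlin).trans (le_of_eq ?_)
  have e8 : s ^ 4 * s ^ (31 / 15 : ℝ) = s ^ (5 + 2) * s ^ (-(14 / 15) : ℝ) := by
    rw [← Real.rpow_natCast s 4, ← Real.rpow_natCast s (5 + 2), ← Real.rpow_add hs,
      ← Real.rpow_add hs]
    norm_num
  calc (2 * s) ^ 4 * ((128 * cV + 2 * C1) * s ^ (31 / 15 : ℝ)) =
        16 * (128 * cV + 2 * C1) * (s ^ 4 * s ^ (31 / 15 : ℝ)) := by ring
    _ = _ := by rw [e8]; ring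

end Pool.Agent.Lib.MP_c167ed_anB
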