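import Pool.Agent.Lib.MP_c167ed_anB.Level
import Pool.Agent.Lib.MP_c167ed_an.Main

/-!
# MP_c167ed_an, dimension six: assembly
-/

open MeasureTheory Set Filter Topology
open scoped ContDiff ENNReal NNReal

namespace Pool.Agent.Lib.MP_c167ed_anB

open Pool.Agent.Lib.MP_c167ed_an

/-- assembly of the abstract data from an estimate of the radial velocity near the axis -/
theorem absData_of_near {m : ℕ} {T : ℝ} {u : ℝ → V m → V m} {p : ℝ → V m → ℝ} (hm : 3 ≤ m)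
    (hT : 0 < T) (h : EulerSolution m T u p) (hax : ∀ t ∈ Ico 0 T, AxisymNoSwirl (u t))
    {A0 C1 : ℝ} (hA0 : 0 ≤ A0) (hC1 : 0 ≤ C1)
    (hnear : ∀ t ∈ Ico 0 T, ∀ (x : V m) (μ : ℝ), 0 < rad x → rad x ≤ 1 → 0 ≤ μ →
      (∀ y, rad y ≤ 2 * rad x → curl (u t) y ≤ μ * rad y) →
      (∑ i : Fin m, u t x i.castSucc * x i.castSucc) ≤ rad x ^ 2 * (A0 + C1 * (μ * rad x))) :
    ∃ K W : ℝ, AbsData m T (fun t r z => u t (emb r z) 0) (fun t r z => om (u t) r z)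
      K W A0 C1 := by
  have hm1 : 1 ≤ m := by omega
  -- local bounds
  have hloc2 : ∀ T' < T, ∃ C, 0 ≤ C ∧ ∀ t ∈ Icc 0 T', ∀ r, 0 < r → ∀ z,
      |om (u t) r z| ≤ C * r := by
    intro T' hT'
    obtain ⟨C, hC0, hC⟩ := h.bounds 2 hT'
    refine ⟨2 * C, by positivity, fun t ht r hr z => ?_⟩
    have ht' : t ∈ Ico 0 T := ⟨ht.1, ht.2.trans_lt hT'⟩
    exact abs_om_le hm1 (h.contDiff ht') (hax t ht') hr.le (fun r' _ => hC t ht _)
  have hloc1 : ∀ T' < T, ∃ C, 0 ≤ C ∧ ∀ t ∈ Icc 0 T', ∀ r, 0 < r → ∀ z,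
      |om (u t) r z| ≤ C := by
    intro T' hT'
    obtain ⟨C, hC0, hC⟩ := h.bounds 1 hT'
    refine ⟨2 * (m + 1) * C, by positivity, fun t ht r hr z => ?_⟩
    have ht' : t ∈ Ico 0 T := ⟨ht.1, ht.2.trans_lt hT'⟩
    have h1 := curl_eq_abs_om hm1 (h.contDiff ht') (hax t ht') (x := emb r z)
      (by rw [rad_emb hm1, abs_of_pos hr]; exact hr)
    rw [rad_emb hm1, ax_emb hm1, abs_of_pos hr] at h1
    rw [← h1]
    refine (curl_le _ _).trans ?_
    gcongr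
    exact hC t ht _
  obtain ⟨K, hK0, hK⟩ := hloc2 0 hT
  obtain ⟨W, hW0, hW⟩ := hloc1 0 hT
  refine ⟨K, W, ⟨hT, hK0, hW0, hA0, hC1, ?_, ?_, ?_, ?_, ?_⟩⟩
  · intro t ht r hr z
    obtain ⟨ρ, ζ, h1, _, h3, h4, h5, _, h7⟩ := exists_traj (by omega) h hax ht (z := z) hr
    exact ⟨ρ, ζ, h1, h3, h4, h5, h7⟩
  · intro t ht r hr z μ hμ hw
    have hr0 : 0 < r := hr.1
    have hrad : rad (emb r z : V m) = r := by rw [rad_emb hm1, abs_of_pos hr0]
    have key := hnear t ht (emb r z) μ (by rw [hrad]; exact hr0) (by rw [hrad]; exact hr.2) hμ ?_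
    · have hsum : (∑ i : Fin m, u t (emb r z) i.castSucc * (emb r z : V m) i.castSucc)
          = u t (emb r z) 0 * r := sum_emb hm1 _ r z
      rw [hsum, hrad] at key
      have : u t (emb r z) 0 * r ≤ (r * (A0 + C1 * (μ * r))) * r := by
        calc _ ≤ _ := key
          _ = _ := by ring
      exact le_of_mul_le_mul_right this hr0
    · intro y hy
      rw [hrad] at hy
      rcases (rad_nonneg y).eq_or_lt with h0 | h0
      · rw [curl_axis hm1 (h.contDiff ht) (hax t ht) h0.symm, ← h0, mul_zero]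
      · rw [curl_eq_abs_om hm1 (h.contDiff ht) (hax t ht) h0]
        exact hw _ ⟨h0, hy⟩ _
  · intro r hr z
    exact hK 0 (by simp) r hr z
  · intro r hr z
    exact hW 0 (by simp) r hr z
  · intro T' hT'
    obtain ⟨C, hC0, hC⟩ := hloc2 T' hT'
    obtain ⟨C', hC0', hC'⟩ := hloc1 T' hT'
    refine ⟨max C C', fun t ht r hr z => ⟨(hC t ht r hr z).trans ?_, (hC' t ht r hr z).trans ?_⟩⟩
    · gcongr; exact le_max_left _ _
    · exact le_max_right _ _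

variable {T : ℝ} {u : ℝ → V 5 → V 5} {p : ℝ → V 5 → ℝ}

/-- the radial velocity near the axis, `d = 6`, all data -/
theorem near_six (hT : 0 < T) (h : EulerSolution 5 T u p)
    (hax : ∀ t ∈ Ico 0 T, AxisymNoSwirl (u t)) :
    ∃ A0 C1 : ℝ, 0 ≤ A0 ∧ 0 ≤ C1 ∧ ∀ t ∈ Ico 0 T, ∀ (x : V 5) (μ : ℝ), 0 < rad x → rad x ≤ 1 →
      0 ≤ μ → (∀ y, rad y ≤ 2 * rad x → curl (u t) y ≤ μ * rad y) →
      (∑ i : Fin 5, u t x i.castSucc * x i.castSucc) ≤ rad x ^ 2 * (A0 + C1 * (μ * rad x)) := by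
  obtain ⟨Cn, hCn, hnear⟩ := near_axis_aux (m := 5) (by norm_num)
  -- energy
  obtain ⟨CE, hCE⟩ := h.sobolev 0 0 hT
  have hE0 : ∫⁻ x, ‖u 0 x‖ₑ ^ 2 ≤ CE := by
    have := hCE 0 (by simp)
    refine le_trans (le_of_eq ?_) this
    congr 1
    ext x
    rw [← ofReal_norm, ← ofReal_norm, norm_iteratedFDeriv_zero]
  set E : ℝ := √(CE : ℝ) with hEdef
  have hE : 0 ≤ E := Real.sqrt_nonneg _
  have hE2 : (CE : ℝ≥0∞) = ENNReal.ofReal (E ^ 2) := by
    rw [hEdef, Real.sq_sqrt (NNReal.coe_nonneg _), ENNReal.ofReal_coe_nnreal]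
  have hEt : ∀ t ∈ Ico 0 T, ∫⁻ x, ‖u t x‖ₑ ^ 2 ≤ ENNReal.ofReal (E ^ 2) := fun t ht =>
    (energy_le h ht).trans (hE0.trans hE2.le)
  obtain ⟨CB, hCB, hball⟩ := ball_bound hT h hax hEt
  refine ⟨Cn * (E + 15 * CB), Cn, by positivity, hCn.le, ?_⟩
  intro t ht x μ hx0 hx1 hμ hcurl
  set g : ℝ → ℝ := fun s => CB * s ^ (-(14 / 15) : ℝ) with hg
  have hgc : ContinuousOn g (Icc (rad x) 1) :=
    continuousOn_const.mul (continuousOn_id.rpow_const fun s hs => Or.inl (hx0.trans_le hs.1).ne')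
  have key := hnear (u t) (h.contDiff ht) (h.divfree t ht) (hax t ht) E hE (hEt t ht) x μ hx0 hx1
    hμ hcurl g hgc fun s hs => hball t ht (axpt x) (rad_axpt x) s (hx0.trans_le hs.1) hs.2
  refine key.trans ?_
  have hI : ∫ s in (rad x)..1, g s ≤ 15 * CB := by
    rw [hg, intervalIntegral.integral_const_mul, integral_rpow (Or.inl (by norm_num))]
    have h1 : 0 ≤ rad x ^ (-(14 / 15) + 1 : ℝ) := Real.rpow_nonneg hx0.le _
    have h2 : (1 ^ (-(14 / 15) + 1 : ℝ) - rad x ^ (-(14 / 15) + 1 : ℝ)) / (-(14 / 15) + 1 : ℝ) ≤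
        15 := by
      rw [Real.one_rpow, div_le_iff₀ (by norm_num)]
      norm_num at h1 ⊢
      linarith
    calc CB * ((1 ^ (-(14 / 15) + 1 : ℝ) - rad x ^ (-(14 / 15) + 1 : ℝ)) /
          (-(14 / 15) + 1 : ℝ)) ≤ CB * 15 := by gcongr
      _ = 15 * CB := by ring
  have h3 : E + μ * rad x + ∫ s in (rad x)..1, g s ≤ E + 15 * CB + μ * rad x := by linarith
  calc rad x ^ 2 * (Cn * (E + μ * rad x + ∫ s in (rad x)..1, g s)) ≤
        rad x ^ 2 * (Cn * (E + 15 * CB + μ * rad x)) := by gcongr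
    _ = _ := by ring

/-- `d = 6`: all `H^∞` axisymmetric data without swirl. -/
theorem main_six (hT : 0 < T) (h : EulerSolution 5 T u p)
    (h0 : AxisymNoSwirl (u 0)) : ∃ C, ∀ t ∈ Ico 0 T, ∀ x, curl (u t) x ≤ C := by
  have hax := axisym_preserved (by omega) h h0
  obtain ⟨A0, C1, hA0, hC1, hnear⟩ := near_six hT h hax
  obtain ⟨K, W, D⟩ := absData_of_near (by norm_num) hT h hax hA0 hC1 hnear
  obtain ⟨C2, hC2, far⟩ := far_est (by norm_num) hT h hax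
  obtain ⟨C, hC⟩ := abs_far (by norm_num) (by norm_num) D hC2 far
  exact ⟨C, curl_bdd_of_om (by omega) h hax hC⟩

/-- `d = 4, 5, 6`: all `H^∞` axisymmetric data without swirl. -/
theorem main_all {m : ℕ} (hm3 : 3 ≤ m) (hm5 : m ≤ 5) {T : ℝ} {u : ℝ → V m → V m}
    {p : ℝ → V m → ℝ} (hT : 0 < T) (h : EulerSolution m T u p) (h0 : AxisymNoSwirl (u 0)) :
    ∃ C, ∀ t ∈ Ico 0 T, ∀ x, curl (u t) x ≤ C := by
  rcases (by omega : (m = 3 ∨ m = 4) ∨ m = 5) with hm | hm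
  · exact main_sobolev hm hT h h0
  · subst hm
    exact main_six hT h h0

end Pool.Agent.Lib.MP_c167ed_anB
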