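import Pool.Agent.Lib.MP_c167ed_an.QBound

/-!
# MP_c167ed_an, dimension six: weight in the axis direction and level cutoff
-/

open MeasureTheory Set Filter Topology
open scoped ContDiff ENNReal NNReal

namespace Pool.Agent.Lib.MP_c167ed_anB

open Pool.Agent.Lib.MP_c167ed_an

/-- the weight `(1-y²)_+²` -/
noncomputable def wt (y : ℝ) : ℝ := (max (1 - y ^ 2) 0) ^ 2

/-- its derivative -/
noncomputable def wt' (y : ℝ) : ℝ := -4 * y * max (1 - y ^ 2) 0

theorem hasDerivAt_wt (y : ℝ) : HasDerivAt wt (wt' y) y := by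
  have h1 : HasDerivAt (fun y : ℝ => 1 - y ^ 2) (-(2 * y)) y := by
    simpa using (hasDerivAt_pow 2 y).const_sub 1
  have h2 := (hasDerivAt_max_sq (1 - y ^ 2)).comp y h1
  refine h2.congr_deriv ?_
  unfold wt'
  ring

theorem wt'_continuous : Continuous wt' := by
  unfold wt'
  fun_prop

theorem wt_contDiff : ContDiff ℝ 1 wt := by
  rw [contDiff_one_iff_deriv]
  refine ⟨fun y => (hasDerivAt_wt y).differentiableAt, ?_⟩
  have : deriv wt = wt' := funext fun y => (hasDerivAt_wt y).deriv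
  rw [this]
  exact wt'_continuous

theorem wt_nonneg (y : ℝ) : 0 ≤ wt y := sq_nonneg _

theorem wt_le_one (y : ℝ) : wt y ≤ 1 := by
  unfold wt
  have h1 : max (1 - y ^ 2) 0 ≤ 1 := max_le (by nlinarith [sq_nonneg y]) zero_le_one
  have h2 : 0 ≤ max (1 - y ^ 2) 0 := le_max_right _ _
  exact pow_le_one₀ h2 h1

theorem wt_zero {y : ℝ} (hy : 1 ≤ |y|) : wt y = 0 := by
  unfold wt
  have h1 : 1 ≤ y ^ 2 := by
    rw [← sq_abs]
    exact one_le_pow₀ hy
  rw [max_eq_right (by linarith)]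
  norm_num

theorem wt_lower {y : ℝ} (hy : |y| ≤ 1 / 2) : 9 / 16 ≤ wt y := by
  unfold wt
  have h1 : y ^ 2 ≤ 1 / 4 := by
    rw [← sq_abs]
    nlinarith [abs_nonneg y]
  have h2 : 3 / 4 ≤ max (1 - y ^ 2) 0 := le_trans (by linarith) (le_max_left _ _)
  nlinarith

/-- `|W'|² ≤ 16 W` -/
theorem wt'_sq (y : ℝ) : wt' y ^ 2 ≤ 16 * wt y := by
  unfold wt' wt
  rcases le_total 1 (y ^ 2) with h | h
  · rw [max_eq_right (by linarith)]
    norm_num
  · have h1 : 0 ≤ (max (1 - y ^ 2) 0) ^ 2 := sq_nonneg _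
    nlinarith

/-- level cutoff: `0` for `|s| ≤ l`, at least `9/10` for `|s| ≥ 2 l` -/
noncomputable def Phi (l s : ℝ) : ℝ := hh ((s / l) ^ 2 - 1)

theorem Phi_contDiff (l : ℝ) : ContDiff ℝ 1 (Phi l) :=
  hh_contDiff.comp (by fun_prop)

theorem Phi_nonneg (l s : ℝ) : 0 ≤ Phi l s := hh_nonneg _

theorem Phi_le_one (l s : ℝ) : Phi l s ≤ 1 := hh_le_one _

theorem Phi_even (l s : ℝ) : Phi l |s| = Phi l s := by
  unfold Phi
  rw [div_pow, div_pow, sq_abs]

theorem Phi_zero {l s : ℝ} (hl : 0 < l) (hs : |s| ≤ l) : Phi l s = 0 := by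
  unfold Phi
  apply hh_zero
  have h1 : |s / l| ≤ 1 := by
    rw [abs_div, abs_of_pos hl, div_le_one hl]
    exact hs
  have h2 : (s / l) ^ 2 ≤ 1 := by
    rw [← sq_abs]
    exact pow_le_one₀ (abs_nonneg _) h1
  linarith

theorem Phi_lower {l s : ℝ} (hl : 0 < l) (hs : 2 * l ≤ |s|) : 9 / 10 ≤ Phi l s := by
  unfold Phi
  have h1 : 2 ≤ |s / l| := by
    rw [abs_div, abs_of_pos hl, le_div_iff₀ hl]
    exact hs
  have h2 : 3 ≤ (s / l) ^ 2 - 1 := by
    rw [← sq_abs]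
    nlinarith
  set y := (s / l) ^ 2 - 1 with hy
  unfold hh
  rw [max_eq_left (by linarith), div_le_div_iff₀ (by norm_num) (by positivity)]
  nlinarith

end Pool.Agent.Lib.MP_c167ed_anB
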